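import Pool.Agent.H201.NC.Mul

/-!
# The digits of `p ^ n`: exponents with bounded gaps, one set of words, and hot points

Let `p, q ≥ 2` be coprime, for instance distinct primes. Let `E` be any set of exponents with bounded
gaps, and let `W` be any nonempty set of words of `M ≥ 1` digits in base `q` (one digit, for
instance). It is shown that for all words `w` of all lengths `k` the share of the occurrences of `w`
in `p ^ n` tends to `q^(-k)` as `n → ∞` (through all exponents) if and only if, as `n → ∞` through
the set `E` only,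

* the words of `W` have together at least the right lower frequency `|W| q^(-M)` in `p ^ n`, and
* (words) for every `ε > 0` there are arbitrarily large `L` such that every word of `L` digits which
  begins with a word of `W` has upper frequency at most `q^(-(1-ε)L)`, with the exception of a set of
  words of total upper frequency at most `ε`;
  or (points) no infinite sequence of digits which begins with a word of `W` is exponentially hot.

In this case the conclusion of the conjecture of Dupuy and Weirich holds for `p` and `q`.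
The two ingredients are a local criterion for the equidistribution of words in arrays
(`Pool.Agent.H201.NC.core`, `hot`), proved by finite combinatorics, and the fact that multiplication
by bounded factors prime to `q` preserves the equidistribution of words (`Equi.mul`).
-/

set_option autoImplicit false

namespace Pool.Agent.Results.MP_b08cb4_nt.BoundedGapsAndHotSpots

open Filter Topology
open Pool.Agent.H201.NC

/-- the number of the digits of `m` in base `q` -/
def len (q m : ℕ) : ℕ := Nat.log q m + 1

/-- the number of the indices `i < len q m` such that the digits `a_i, a_(i+1), …, a_(i+k-1)` of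
`m = ∑ a_i q^i` form a word of `S` -/
def count (q : ℕ) [NeZero q] (m : ℕ) {k : ℕ} (S : Finset (Fin k → Fin q)) : ℕ :=
  ((Finset.range (len q m)).filter fun i : ℕ =>
    (fun j : Fin k => Fin.ofNat q (m / q ^ (i + (j : ℕ)))) ∈ S).card

/-- all words have the right asymptotic frequency in `p ^ n`, as `n → ∞` along `l` -/
def Words (p q : ℕ) [NeZero q] (l : Filter ℕ) : Prop :=
  ∀ k : ℕ, 1 ≤ k → ∀ w : Fin k → Fin q,
    Tendsto (fun n => (count q (p ^ n) {w} : ℝ) / len q (p ^ n)) l (𝓝 (((q : ℝ) ^ k)⁻¹))

/-- the lower frequency of `W` is at least `|W| q^(-M)` -/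
def AtLeast (p q : ℕ) [NeZero q] (l : Filter ℕ) {M : ℕ} (W : Finset (Fin M → Fin q)) : Prop :=
  ∀ δ : ℝ, 0 < δ → ∀ᶠ n in l,
    (W.card / (q : ℝ) ^ M - δ) * len q (p ^ n) ≤ count q (p ^ n) W

/-- the condition for words -/
def ColdWords (p q : ℕ) [NeZero q] (l : Filter ℕ) {M : ℕ} (W : Finset (Fin M → Fin q)) : Prop :=
  ∀ ε : ℝ, 0 < ε → ∀ L0 : ℕ, ∃ L ≥ L0, ∃ H : Finset (Fin L → Fin q),
    (∀ᶠ n in l, (count q (p ^ n) H : ℝ) ≤ ε * len q (p ^ n)) ∧
    ∀ u ∉ H, ∀ h : M ≤ L, (fun j => u (Fin.castLE h j)) ∈ W →
      ∀ᶠ n in l, (count q (p ^ n) {u} : ℝ) ≤ (q : ℝ) ^ (-(1 - ε) * L) * len q (p ^ n)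

/-- exponentially hot points -/
def HotPoint (p q : ℕ) [NeZero q] (l : Filter ℕ) (y : ℕ → Fin q) : Prop :=
  ∃ ε : ℝ, 0 < ε ∧ ∀ K : ℕ, ∃ L ≥ K, ∃ᶠ n in l,
    (q : ℝ) ^ (-(1 - ε) * L) * len q (p ^ n) < count q (p ^ n) {fun j : Fin L => y j}

theorem count_eq (q : ℕ) [NeZero q] (m : ℕ) {k : ℕ} (S : Finset (Fin k → Fin q)) :
    count q m S = occ (dg q m) S 0 (len q m) := by
  unfold count occ win dg
  simp only [zero_add]

theorem len_bounds {p q : ℕ} (hp : 2 ≤ p) (hq : 2 ≤ q) (n : ℕ) :
    n * Real.logb q p ≤ len q (p ^ n) ∧ (len q (p ^ n) : ℝ) ≤ n * Real.logb q p + 1 := by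
  have h1 := Real.natFloor_logb_natCast q (p ^ n)
  have hpr : (1 : ℝ) < p := by exact_mod_cast hp
  have hqr : (1 : ℝ) < q := by exact_mod_cast hq
  have h2 : Real.logb q ((p ^ n : ℕ) : ℝ) = n * Real.logb q p := by
    push_cast
    rw [Real.logb_pow]
  rw [h2] at h1
  have h3 : 0 ≤ (n : ℝ) * Real.logb q p := mul_nonneg (Nat.cast_nonneg _) (Real.logb_nonneg hqr hpr.le)
  have h4 := Nat.floor_le h3
  have h5 := Nat.lt_floor_add_one ((n : ℝ) * Real.logb q p)
  rw [h1] at h4 h5
  unfold len
  push_cast
  exact ⟨h5.le, by linarith⟩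

theorem logb_pos {p q : ℕ} (hp : 2 ≤ p) (hq : 2 ≤ q) : 0 < Real.logb q p :=
  Real.logb_pos (by exact_mod_cast hq) (by exact_mod_cast hp)

theorem len_tendsto {p q : ℕ} (hp : 2 ≤ p) (hq : 2 ≤ q) :
    Tendsto (fun n => len q (p ^ n)) atTop atTop := by
  have h1 : Tendsto (fun n : ℕ => (n : ℝ) * Real.logb q p) atTop atTop :=
    tendsto_natCast_atTop_atTop.atTop_mul_const (logb_pos hp hq)
  have h2 : Tendsto (fun n : ℕ => (len q (p ^ n) : ℝ)) atTop atTop :=
    tendsto_atTop_mono (fun n => (len_bounds hp hq n).1) h1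
  exact tendsto_natCast_atTop_iff.mp h2

theorem len_mul {q a c K : ℕ} (hq : 2 ≤ q) (ha : a ≠ 0) (hc : 0 < c) (hcK : c ≤ K) :
    len q a ≤ len q (c * a) ∧ len q (c * a) ≤ len q a + len q K := by
  unfold len
  constructor
  · exact Nat.add_le_add_right (Nat.log_mono_right (Nat.le_mul_of_pos_left a hc)) 1
  · have h1 : a < q ^ (Nat.log q a + 1) := Nat.lt_pow_succ_log_self hq a
    have h2 : c < q ^ (Nat.log q K + 1) := hcK.trans_lt (Nat.lt_pow_succ_log_self hq K)
    have h3 : c * a < q ^ (Nat.log q K + 1 + (Nat.log q a + 1)) := by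
      rw [pow_add]
      exact Nat.mul_lt_mul_of_lt_of_le h2 h1.le (by positivity)
    have h4 := Nat.log_lt_of_lt_pow (b := q) (by positivity : c * a ≠ 0) h3
    omega

/-- **The digits of `p ^ n`.** -/
theorem result (p q : ℕ) [NeZero q] (hp : 2 ≤ p) (hq : 2 ≤ q) (hpq : Nat.Coprime p q)
    (E : Set ℕ) (hE : ∃ K : ℕ, ∀ n : ℕ, ∃ e ∈ E, n ≤ e ∧ e ≤ n + K) {M : ℕ} (hM : 1 ≤ M)
    (W : Finset (Fin M → Fin q)) (hW : W.Nonempty) :
    (Words p q atTop ↔ AtLeast p q (atTop ⊓ 𝓟 E) W ∧ ColdWords p q (atTop ⊓ 𝓟 E) W) ∧
    (Words p q atTop ↔ AtLeast p q (atTop ⊓ 𝓟 E) W ∧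
      ∀ y : ℕ → Fin q, (fun j : Fin M => y j) ∈ W → ¬ HotPoint p q (atTop ⊓ 𝓟 E) y) ∧
    (Words p q atTop → ∀ b < q,
      Tendsto (fun n : ℕ => (((Finset.range (Nat.log q (p ^ n) + 1)).filter fun i =>
        p ^ n / q ^ i % q = b).card : ℝ) / (n * Real.logb q p)) atTop (𝓝 (1 / q))) := by
  classical
  have hinh : Inhabited (Fin q) := ⟨Fin.ofNat q 0⟩
  have hqq : qq (Fin q) = q := qq_fin
  set l : Filter ℕ := atTop ⊓ 𝓟 E with hl
  have hlen : Tendsto (fun n => len q (p ^ n)) atTop atTop := len_tendsto hp hq
  have hlenl : Tendsto (fun n => len q (p ^ n)) l atTop := hlen.mono_left inf_le_left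
  have hcard : 2 ≤ Fintype.card (Fin q) := by rw [Fintype.card_fin]; exact hq
  have hEq : ∀ l' : Filter ℕ, Words p q l' ↔
      Equi l' (fun n => dg q (p ^ n)) (fun n => len q (p ^ n)) := by
    intro l'
    unfold Words Equi
    simp only [count_eq, hqq]
    exact Iff.rfl
  have hA : AtLeast p q l W ↔ Low l (fun n => dg q (p ^ n)) (fun n => len q (p ^ n)) W := by
    unfold AtLeast Low dens
    simp only [count_eq, hqq]
  -- all exponents and the exponents in `E`
  have hiff : Words p q atTop ↔ Words p q l := by
    constructor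
    · intro h k hk w
      exact (h k hk w).mono_left inf_le_left
    · intro h
      obtain ⟨K, hK⟩ := hE
      have he : ∀ n : ℕ, ∃ e, e ≤ n ∧ n ≤ e + K ∧ (K ≤ n → e ∈ E) := by
        intro n
        by_cases hn : K ≤ n
        · obtain ⟨e, he1, he2, he3⟩ := hK (n - K)
          exact ⟨e, by omega, by omega, fun _ => he1⟩
        · exact ⟨n, le_rfl, by omega, fun h => absurd h hn⟩
      choose e he1 he2 he3 using he
      have het : Tendsto e atTop l := by
        rw [hl, tendsto_inf]
        constructor
        · refine tendsto_atTop_mono (f := fun n => n - K) (fun n => by have := he2 n; omega) ?_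
          exact tendsto_sub_atTop_nat K
        · rw [tendsto_principal]
          filter_upwards [eventually_ge_atTop K] with n hn using he3 n hn
      rw [hEq] at h ⊢
      have h1 : Equi atTop (fun n => dg q (p ^ e n)) (fun n => len q (p ^ e n)) :=
        fun k hk w => (h k hk w).comp het
      have hlE : ∀ n, len q (p ^ e n) ≤ len q (p ^ n) ∧
          len q (p ^ n) ≤ len q (p ^ e n) + len q (p ^ K) := by
        intro n
        have h2 : p ^ n = p ^ (n - e n) * p ^ e n := by
          rw [← pow_add, Nat.sub_add_cancel (he1 n)]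
        rw [h2]
        refine len_mul hq (by positivity) (by positivity) ?_
        exact Nat.pow_le_pow_right (by omega) (by have := he2 n; omega)
      have h3 := Equi.mul hq (l := atTop) (a := fun n => p ^ e n) (c := fun n => p ^ (n - e n))
        (N := fun n => len q (p ^ e n)) (N' := fun n => len q (p ^ n)) (C := p ^ K)
        (K := len q (p ^ K)) (hlen.comp (het.mono_right inf_le_left)) (fun n => ⟨by positivity,
          Nat.pow_le_pow_right (by omega) (by have := he2 n; omega), hpq.pow_left _⟩)
        (fun n => ⟨by have := (hlE n).1; omega, (hlE n).2⟩) h1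
      have h4 : (fun n => dg q (p ^ (n - e n) * p ^ e n)) = fun n => dg q (p ^ n) := by
        funext n
        rw [← pow_add, Nat.sub_add_cancel (he1 n)]
      rw [h4] at h3
      exact h3
  refine ⟨?_, ?_, ?_⟩
  · rw [hiff, hEq, hA, equi_iff_words hlenl hcard hM hW]
    refine and_congr_right fun _ => ?_
    unfold ColdWords
    simp only [count_eq, hqq]
    constructor
    · intro h ε hε L0
      obtain ⟨L, hL, H, h1, h2⟩ := h ε hε L0
      refine ⟨L, hL, H, h1, fun u hu hML hw => h2 u hu ?_⟩
      have h3 : win (ext u) M 0 = fun j => u (Fin.castLE hML j) := by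
        funext j
        show ext u (0 + j) = _
        unfold ext
        rw [dif_pos (by omega)]
        congr 1
        ext
        simp
      rw [h3]
      exact hw
    · intro h ε hε L0
      obtain ⟨L, hL, H, h1, h2⟩ := h ε hε (max L0 M)
      have hML : M ≤ L := (le_max_right _ _).trans hL
      refine ⟨L, (le_max_left _ _).trans hL, H, h1, fun u hu hw => h2 u hu hML ?_⟩
      have h3 : win (ext u) M 0 = fun j => u (Fin.castLE hML j) := by
        funext j
        show ext u (0 + j) = _
        unfold ext
        rw [dif_pos (by omega)]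
        congr 1
        ext
        simp
      rw [← h3]
      exact hw
  · rw [hiff, hEq, hA, equi_iff_points hlenl hcard hM hW]
    refine and_congr_right fun _ => ?_
    have hwin : ∀ (y : ℕ → Fin q) (k : ℕ), win y k 0 = fun j : Fin k => y j := by
      intro y k
      funext j
      show y (0 + j) = y j
      rw [zero_add]
    unfold HotPoint
    simp only [count_eq, hqq, hwin]
    constructor
    · rintro h y hy ⟨ε, hε, hK⟩
      obtain ⟨K, hK'⟩ := h y hy ε hε
      obtain ⟨L, hL, hf⟩ := hK K
      exact hf ((hK' L hL).mono fun N hN' => not_lt.mpr hN')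
    · intro h y hy ε hε
      by_contra hcon
      push Not at hcon
      refine h y hy ⟨ε, hε, fun K => ?_⟩
      obtain ⟨L, hL, hf⟩ := hcon K
      exact ⟨L, hL, hf⟩
  · intro h b hb
    have h1 := h 1 le_rfl (fun _ => ⟨b, hb⟩)
    rw [pow_one] at h1
    have h2 : Tendsto (fun n : ℕ => (len q (p ^ n) : ℝ) / (n * Real.logb q p)) atTop (𝓝 1) := by
      have hlog := logb_pos hp hq
      have h3 : Tendsto (fun n : ℕ => 1 + 1 / ((n : ℝ) * Real.logb q p)) atTop (𝓝 (1 + 0)) := by
        refine tendsto_const_nhds.add ?_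
        exact tendsto_const_nhds.div_atTop (tendsto_natCast_atTop_atTop.atTop_mul_const hlog)
      rw [add_zero] at h3
      refine tendsto_of_tendsto_of_tendsto_of_le_of_le' tendsto_const_nhds h3 ?_ ?_
      · filter_upwards [eventually_gt_atTop 0] with n hn
        have hn' : (0 : ℝ) < n := by exact_mod_cast hn
        rw [le_div_iff₀ (by positivity), one_mul]
        exact (len_bounds hp hq n).1
      · filter_upwards [eventually_gt_atTop 0] with n hn
        have hn' : (0 : ℝ) < n := by exact_mod_cast hn
        rw [div_le_iff₀ (by positivity), add_mul, one_mul, one_div,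
          inv_mul_cancel₀ (by positivity)]
        exact (len_bounds hp hq n).2
    have h3 := h1.mul h2
    rw [mul_one, ← one_div] at h3
    refine h3.congr' ?_
    filter_upwards [eventually_gt_atTop 0] with n hn
    have hlenpos : (0 : ℝ) < len q (p ^ n) := by
      unfold len
      positivity
    have h4 : count q (p ^ n) {fun _ : Fin 1 => (⟨b, hb⟩ : Fin q)} =
        ((Finset.range (Nat.log q (p ^ n) + 1)).filter fun i => p ^ n / q ^ i % q = b).card := by
      unfold count len
      congr 1
      refine Finset.filter_congr fun i _ => ?_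
      rw [Finset.mem_singleton]
      constructor
      · intro h5
        have h6 := congrFun h5 0
        have h7 := congrArg Fin.val h6
        simpa using h7
      · intro h5
        funext j
        have hj : (j : ℕ) = 0 := by omega
        ext
        show p ^ n / q ^ (i + j) % q = b
        rw [hj, add_zero]
        exact h5
    rw [h4, div_mul_div_comm, mul_comm ((len q (p ^ n) : ℝ)) _,
      mul_div_mul_right _ _ hlenpos.ne']

end Pool.Agent.Results.MP_b08cb4_nt.BoundedGapsAndHotSpots
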