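import Mathlib
import Pool.Agent.H723.PW.Main

set_option autoImplicit false

/-!
# The digits of powers are not compressible: an effective and uniform lower bound

Let `p` be a prime, `a` an integer not divisible by `p` and `q` a multiple of `p`. The digits of
`a ^ n` in base `q`, and of all integers `(u a ^ n + w) / v` with small `u`, `v`, `w`, are read from
the lowest one upwards. The number `z` of phrases in which the first `N ≤ n` of them can be cut, each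
of which is predicted from the digits below it, is at least about `log N / (2 log log n)`.
-/

namespace Pool.Agent.Results.MP_b08cb4_nt.LempelZivPowers

open Pool.Agent.H723.PW

/-- `x = (u a ^ n + w) / v` for integers `u, v ≠ 0` and `w` of absolute value at most `H`. -/
def IsNearPower (a n : ℕ) (H : ℝ) (x : ℕ) : Prop :=
  ∃ u v w : ℤ, u ≠ 0 ∧ v ≠ 0 ∧ |(u : ℝ)| ≤ H ∧ |(v : ℝ)| ≤ H ∧ |(w : ℝ)| ≤ H ∧
    v * (x : ℤ) = u * (a : ℤ) ^ n + w

/-- The digits of `x` in base `q` at the places `0, ..., N - 1` are written by `z` predictions, or by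
a digit program with `z` instructions, or they have a Lempel-Ziv parse with `z` phrases. -/
def Compressed (q x N z : ℕ) : Prop :=
  Writes q x N z ∨ Program q (digit q x) N z ∨ LZ77 (digit q x) N z

theorem result :
    (∀ a q p : ℕ, 2 ≤ a → 2 ≤ q → p.Prime → p ∣ q → ¬ p ∣ a → ∀ n : ℕ, 2 ≤ n →
      ∀ H : ℝ, 1 ≤ H → ∀ x : ℕ, IsNearPower a n H x → ∀ N z : ℕ, N ≤ n → Compressed q x N z →
        (N : ℝ) ≤ (1 + Real.log H) *
          (16200000 * (p : ℝ) ^ 2 * ((Nat.log 2 a : ℝ) + 1) * ((Nat.log 2 q : ℝ) + 1) *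
            Real.log n) ^ (2 * z + 1)) ∧
    ∀ a q : ℕ, 2 ≤ a → 2 ≤ q → (∃ p : ℕ, p.Prime ∧ p ∣ q ∧ ¬ p ∣ a) → ∀ ε : ℝ, 0 < ε → ε < 1 / 2 →
      ∃ n₀ : ℕ, 2 ≤ n₀ ∧ ∀ n : ℕ, n₀ ≤ n → ∀ x : ℕ, IsNearPower a n (Real.exp ((n : ℝ) ^ ε)) x →
        ∀ z : ℕ, Compressed q x n z → (1 / 2 - ε) * Real.log n / Real.log (Real.log n) ≤ z := by
  have key : ∀ a q p : ℕ, 2 ≤ a → 2 ≤ q → p.Prime → p ∣ q → ¬ p ∣ a → ∀ n : ℕ, 2 ≤ n →
      ∀ H : ℝ, 1 ≤ H → ∀ x : ℕ, IsNearPower a n H x → ∀ N z : ℕ, N ≤ n → Compressed q x N z →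
        (N : ℝ) ≤ (1 + Real.log H) * (cst a q p * Real.log n) ^ (2 * z + 1) := by
    intro a q p ha hq hp hpq hpa n hn H hH x hx N z hN hc
    obtain ⟨u, v, w, hu0, _, hu, hv, hw, hx⟩ := hx
    have hW : Writes q x N z := by
      rcases hc with h | h | h
      · exact h
      · exact h.writes hq
      · exact (h.program hq).writes hq
    have hH0 : (0 : ℝ) ≤ H := by linarith
    have hfl : ∀ y : ℤ, |(y : ℝ)| ≤ H → |y| ≤ ((⌊H⌋₊ : ℕ) : ℤ) := by
      intro y hy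
      have h1 : ((y.natAbs : ℕ) : ℝ) ≤ H := by
        rwa [Nat.cast_natAbs, Int.cast_abs]
      have h2 : y.natAbs ≤ ⌊H⌋₊ := Nat.le_floor h1
      rw [Int.abs_eq_natAbs]
      exact_mod_cast h2
    have hfl1 : 1 ≤ ⌊H⌋₊ := Nat.one_le_floor_iff _ |>.2 hH
    have h := Writes.bound hp hpq hpa ha hq n hn ⌊H⌋₊ hfl1 u v w x hu0 (hfl u hu) (hfl v hv)
      (hfl w hw) hx N z hN hW
    refine h.trans ?_
    have h1 : Real.log (⌊H⌋₊ : ℝ) ≤ Real.log H :=
      Real.log_le_log (by exact_mod_cast hfl1) (Nat.floor_le hH0)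
    have h2 : 0 ≤ Real.log n := Real.log_nonneg (by exact_mod_cast (by omega : 1 ≤ n))
    have h3 : 0 ≤ cst a q p := by
      rw [cst]
      positivity
    gcongr
  refine ⟨?_, ?_⟩
  · intro a q p ha hq hp hpq hpa n hn H hH x hx N z hN hc
    exact key a q p ha hq hp hpq hpa n hn H hH x hx N z hN hc
  · intro a q ha hq hpp ε hε hε2
    obtain ⟨p, hp, hpq, hpa⟩ := hpp
    have hC : 1 ≤ cst a q p := by
      rw [cst]
      have h1 : (1 : ℝ) ≤ p := by exact_mod_cast hp.one_lt.le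
      have h2 : (0 : ℝ) ≤ (Nat.log 2 a : ℝ) := Nat.cast_nonneg _
      have h3 : (0 : ℝ) ≤ (Nat.log 2 q : ℝ) := Nat.cast_nonneg _
      have h4 : (1 : ℝ) ≤ (p : ℝ) ^ 2 := one_le_pow₀ h1
      have h5 : (1 : ℝ) ≤ (p : ℝ) ^ 2 * ((Nat.log 2 a : ℝ) + 1) := by nlinarith
      have h6 : (1 : ℝ) ≤ (p : ℝ) ^ 2 * ((Nat.log 2 a : ℝ) + 1) * ((Nat.log 2 q : ℝ) + 1) := by
        nlinarith
      nlinarith
    obtain ⟨n₀, hn₀, h⟩ := asymptotic hC hε hε2
    refine ⟨n₀, hn₀, ?_⟩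
    intro n hn x hx z hc
    apply h n hn z
    have hn2 : 2 ≤ n := hn₀.trans hn
    have hpow : (0 : ℝ) ≤ (n : ℝ) ^ ε := by positivity
    have h1 := key a q p ha hq hp hpq hpa n hn2 (Real.exp ((n : ℝ) ^ ε))
      (Real.one_le_exp hpow) x hx n z le_rfl hc
    rwa [Real.log_exp] at h1

end Pool.Agent.Results.MP_b08cb4_nt.LempelZivPowers
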